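import Pool.Agent.Helper58.SU.StU

/-!
# Project SU (MP_b454d1_nt), module HIFU: high frequencies of the smooth prime sum, `|t| ≤ X^τ`

The analytic part is a copy of `Pool.Agent.Helper76.GK.M_HIF`.
-/

set_option autoImplicit false

namespace Pool.Agent.Helper31.SU

open Finset ArithmeticFunction MeasureTheory Filter Topology
open Pool.Agent.Helper48.BK (ex th Sx Apx)
open Pool.Agent.Helper2.MR (ch)
open Pool.Agent.Helper15.AB (IsW)
open Pool.Agent.Helper23.GK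
open Pool.Agent.Helper63.GW
open Pool.Agent.Helper58.SU

/-! ### the weight -/

private noncomputable def hh (x : ℝ) : ℝ := (1 + x ^ 2) ^ (-(5 / 8) : ℝ)

private lemma hh_pos (x : ℝ) : 0 < hh x := Real.rpow_pos_of_pos (by positivity) _

private lemma hh_int : Integrable hh := by
  have h := integrable_rpow_neg_one_add_norm_sq (E := ℝ) (μ := volume) (r := 5 / 4)
    (by norm_num)
  have e : hh = fun x : ℝ => ((1 : ℝ) + ‖x‖ ^ 2) ^ (-(5 / 4) / 2 : ℝ) := by
    funext x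
    unfold hh
    rw [Real.norm_eq_abs, sq_abs]
    norm_num
  rw [e]
  exact h

private lemma inv_le_hh (x : ℝ) : 1 / (1 + x ^ 2) ≤ hh x := by
  unfold hh
  have h1 : (1 : ℝ) ≤ 1 + x ^ 2 := by nlinarith [sq_nonneg x]
  rw [one_div, ← Real.rpow_neg_one]
  exact Real.rpow_le_rpow_of_exponent_le h1 (by norm_num)

private lemma inv_le_hh' (x Y : ℝ) (hY : 0 < Y) (hx : Y ≤ |x|) :
    1 / (1 + x ^ 2) ≤ Y ^ (-(3 / 4) : ℝ) * hh x := by
  unfold hh
  have h1 : (0 : ℝ) < 1 + x ^ 2 := by positivity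
  have h2 : (1 : ℝ) / (1 + x ^ 2) = (1 + x ^ 2) ^ (-(3 / 8) : ℝ) * (1 + x ^ 2) ^ (-(5 / 8) : ℝ) := by
    rw [← Real.rpow_add h1, one_div, ← Real.rpow_neg_one]
    norm_num
  rw [h2]
  apply mul_le_mul_of_nonneg_right _ (Real.rpow_nonneg h1.le _)
  have h3 : Y ^ (-(3 / 4) : ℝ) = (Y ^ 2) ^ (-(3 / 8) : ℝ) := by
    rw [← Real.rpow_natCast Y 2, ← Real.rpow_mul hY.le]
    norm_num
  rw [h3]
  apply Real.rpow_le_rpow_of_nonpos (by positivity) _ (by norm_num)
  have h4 : Y ^ 2 ≤ |x| ^ 2 := by gcongr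
  rw [sq_abs] at h4
  linarith

/-! ### the abstract convolution bound -/

private lemma kint (C : ℝ) : Integrable (fun x : ℝ => C / (1 + x ^ 2)) := by
  have h := integrable_inv_one_add_sq.const_mul C
  refine h.congr (Eventually.of_forall fun x => ?_)
  simp [div_eq_mul_inv]

private lemma kint_eq (C : ℝ) : ∫ x : ℝ, C / (1 + x ^ 2) = C * Real.pi := by
  have e : (fun x : ℝ => C / (1 + x ^ 2)) = fun x => C * (1 + x ^ 2)⁻¹ := by
    funext x
    rw [div_eq_mul_inv]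
  rw [e, integral_const_mul, integral_univ_inv_one_add_sq]

private lemma cs_bound (C M : ℝ) (hC : 0 < C) (P : ℝ → ℂ) (hP : Continuous P)
    (hM : ∀ t, ‖P t‖ ≤ M) (t : ℝ) :
    (∫ ξ : ℝ, C / (1 + ξ ^ 2) * ‖P (t - ξ)‖) ^ 2 ≤
      C * Real.pi * ∫ ξ : ℝ, C / (1 + ξ ^ 2) * ‖P (t - ξ)‖ ^ 2 := by
  have hM0 : 0 ≤ M := le_trans (norm_nonneg _) (hM 0)
  have hk0 : ∀ ξ : ℝ, 0 ≤ C / (1 + ξ ^ 2) := fun ξ => by positivity
  have hPc : Continuous fun ξ : ℝ => ‖P (t - ξ)‖ := by fun_prop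
  have hkc : Continuous fun ξ : ℝ => C / (1 + ξ ^ 2) := by
    apply Continuous.div (by fun_prop) (by fun_prop)
    intro x
    positivity
  have i1 : Integrable (fun ξ : ℝ => C / (1 + ξ ^ 2) * ‖P (t - ξ)‖) := by
    refine ((kint C).mul_const M).mono' (hkc.mul hPc).aestronglyMeasurable
      (Eventually.of_forall fun ξ => ?_)
    rw [Real.norm_of_nonneg (mul_nonneg (hk0 ξ) (norm_nonneg _))]
    exact mul_le_mul_of_nonneg_left (hM _) (hk0 ξ)
  have i2 : Integrable (fun ξ : ℝ => C / (1 + ξ ^ 2) * ‖P (t - ξ)‖ ^ 2) := by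
    refine ((kint C).mul_const (M ^ 2)).mono' (hkc.mul (hPc.pow 2)).aestronglyMeasurable
      (Eventually.of_forall fun ξ => ?_)
    rw [Real.norm_of_nonneg (mul_nonneg (hk0 ξ) (by positivity))]
    exact mul_le_mul_of_nonneg_left (pow_le_pow_left₀ (norm_nonneg _) (hM _) 2) (hk0 ξ)
  set p := ∫ ξ : ℝ, C / (1 + ξ ^ 2) * ‖P (t - ξ)‖ with hp
  set s := ∫ ξ : ℝ, C / (1 + ξ ^ 2) * ‖P (t - ξ)‖ ^ 2 with hs
  have hκ : 0 < C * Real.pi := by positivity
  set x := p / (C * Real.pi) with hx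
  have h1 : 0 ≤ ∫ ξ : ℝ, C / (1 + ξ ^ 2) * (x - ‖P (t - ξ)‖) ^ 2 :=
    integral_nonneg fun ξ => mul_nonneg (hk0 ξ) (sq_nonneg _)
  have h2 : ∫ ξ : ℝ, C / (1 + ξ ^ 2) * (x - ‖P (t - ξ)‖) ^ 2 =
      x ^ 2 * (C * Real.pi) - 2 * x * p + s := by
    have e : (fun ξ : ℝ => C / (1 + ξ ^ 2) * (x - ‖P (t - ξ)‖) ^ 2) = fun ξ =>
        (x ^ 2 * (C / (1 + ξ ^ 2)) - 2 * x * (C / (1 + ξ ^ 2) * ‖P (t - ξ)‖)) +
          C / (1 + ξ ^ 2) * ‖P (t - ξ)‖ ^ 2 := by
      funext ξ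
      ring
    have j1 : Integrable (fun ξ : ℝ => x ^ 2 * (C / (1 + ξ ^ 2))) := (kint C).const_mul _
    have j2 : Integrable (fun ξ : ℝ => 2 * x * (C / (1 + ξ ^ 2) * ‖P (t - ξ)‖)) :=
      i1.const_mul _
    have j3 : Integrable (fun ξ : ℝ => x ^ 2 * (C / (1 + ξ ^ 2)) -
        2 * x * (C / (1 + ξ ^ 2) * ‖P (t - ξ)‖)) := j1.sub j2
    rw [e, integral_add j3 i2, integral_sub j1 j2, integral_const_mul,
      integral_const_mul, kint_eq]
  rw [h2] at h1
  have h3 : p = x * (C * Real.pi) := by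
    rw [hx]
    field_simp
  have h4 : p ^ 2 = C * Real.pi * (x ^ 2 * (C * Real.pi)) := by
    rw [h3]
    ring
  have h5 : 2 * x * p = 2 * (x ^ 2 * (C * Real.pi)) := by
    rw [h3]
    ring
  rw [h5] at h1
  rw [h4]
  apply mul_le_mul_of_nonneg_left _ hκ.le
  linarith

private lemma conv_bound {ι : Type} (E : Finset ι) (K : ℝ → ℂ) (C : ℝ) (hC : 0 < C)
    (hK : ∀ ξ, ‖K ξ‖ ≤ C / (1 + ξ ^ 2)) (P : ι → ℝ → ℂ)
    (hP : ∀ e ∈ E, Continuous (P e)) (M : ℝ) (hM : ∀ e ∈ E, ∀ t, ‖P e t‖ ≤ M)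
    (φ : ℝ → ℂ) (hφ : ∀ ξ, ‖φ ξ‖ = 1) (c : ι → ℂ) (hc : ∀ e ∈ E, ‖c e‖ ≤ 1)
    (G : ℝ → ℂ) (hG : ∀ t, G t = ∑ e ∈ E, c e * ∫ ξ : ℝ, K ξ * φ ξ * P e (t - ξ))
    (R : Set ℝ) (hR : volume R ≠ ⊤) (B : ℝ)
    (hB : ∀ e ∈ E, ∀ ξ : ℝ, C / (1 + ξ ^ 2) * ∫ t in R, ‖P e (t - ξ)‖ ^ 2 ≤ B * hh ξ) :
    ∫ t in R, ‖G t‖ ^ 2 ≤ (E.card : ℝ) ^ 2 * (C * Real.pi) * (B * ∫ ξ, hh ξ) := by
  classical
  have : IsFiniteMeasure (volume.restrict R) := ⟨by simpa using hR.lt_top⟩
  have hk0 : ∀ ξ : ℝ, 0 ≤ C / (1 + ξ ^ 2) := fun ξ => by positivity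
  have hkc : Continuous fun ξ : ℝ => C / (1 + ξ ^ 2) := by
    apply Continuous.div (by fun_prop) (by fun_prop)
    intro x
    positivity
  -- the double integral
  have hF : ∀ e ∈ E, Integrable (Function.uncurry fun t ξ : ℝ =>
      C / (1 + ξ ^ 2) * ‖P e (t - ξ)‖ ^ 2) ((volume.restrict R).prod volume) := by
    intro e he
    have hPe := hP e he
    have h1 : Integrable (fun z : ℝ × ℝ => M ^ 2 * (C / (1 + z.2 ^ 2)))
        ((volume.restrict R).prod volume) := by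
      exact (integrable_const (M ^ 2)).mul_prod (kint C)
    refine h1.mono' ?_ (Eventually.of_forall fun z => ?_)
    · apply Continuous.aestronglyMeasurable
      have h2 : Continuous fun z : ℝ × ℝ => C / (1 + z.2 ^ 2) := hkc.comp continuous_snd
      have h3 : Continuous fun z : ℝ × ℝ => ‖P e (z.1 - z.2)‖ ^ 2 :=
        ((hPe.comp (continuous_fst.sub continuous_snd)).norm).pow 2
      exact h2.mul h3
    · show ‖C / (1 + z.2 ^ 2) * ‖P e (z.1 - z.2)‖ ^ 2‖ ≤ _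
      rw [Real.norm_of_nonneg (mul_nonneg (hk0 _) (by positivity)), mul_comm]
      apply mul_le_mul_of_nonneg_right _ (hk0 _)
      exact pow_le_pow_left₀ (norm_nonneg _) (hM e he _) 2
  have hswap : ∀ e ∈ E, ∫ t in R, ∫ ξ : ℝ, C / (1 + ξ ^ 2) * ‖P e (t - ξ)‖ ^ 2 ≤
      B * ∫ ξ, hh ξ := by
    intro e he
    rw [integral_integral_swap (hF e he), ← integral_const_mul]
    apply integral_mono_of_nonneg
    · exact Eventually.of_forall fun ξ => integral_nonneg fun t =>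
        mul_nonneg (hk0 _) (by positivity)
    · exact hh_int.const_mul B
    · refine Eventually.of_forall fun ξ => ?_
      show ∫ t in R, C / (1 + ξ ^ 2) * ‖P e (t - ξ)‖ ^ 2 ≤ B * hh ξ
      rw [integral_const_mul]
      exact hB e he ξ
  -- pointwise
  have hpt : ∀ t, ‖G t‖ ^ 2 ≤ (E.card : ℝ) * (C * Real.pi) *
      ∑ e ∈ E, ∫ ξ : ℝ, C / (1 + ξ ^ 2) * ‖P e (t - ξ)‖ ^ 2 := by
    intro t
    have h1 : ‖G t‖ ≤ ∑ e ∈ E, ∫ ξ : ℝ, C / (1 + ξ ^ 2) * ‖P e (t - ξ)‖ := by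
      rw [hG]
      refine (norm_sum_le _ _).trans (Finset.sum_le_sum fun e he => ?_)
      rw [norm_mul]
      have h2 : ‖∫ ξ : ℝ, K ξ * φ ξ * P e (t - ξ)‖ ≤
          ∫ ξ : ℝ, C / (1 + ξ ^ 2) * ‖P e (t - ξ)‖ := by
        have hPe := hP e he
        apply norm_integral_le_of_norm_le
        · refine ((kint C).mul_const M).mono' ?_ (Eventually.of_forall fun ξ => ?_)
          · exact (hkc.mul (by fun_prop : Continuous fun ξ : ℝ => ‖P e (t - ξ)‖)
              ).aestronglyMeasurable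
          · rw [Real.norm_of_nonneg (mul_nonneg (hk0 _) (norm_nonneg _))]
            exact mul_le_mul_of_nonneg_left (hM e he _) (hk0 _)
        · refine Eventually.of_forall fun ξ => ?_
          show ‖K ξ * φ ξ * P e (t - ξ)‖ ≤ C / (1 + ξ ^ 2) * ‖P e (t - ξ)‖
          rw [norm_mul, norm_mul, hφ, mul_one]
          exact mul_le_mul_of_nonneg_right (hK ξ) (norm_nonneg _)
      calc ‖c e‖ * ‖∫ ξ : ℝ, K ξ * φ ξ * P e (t - ξ)‖ ≤
          1 * ‖∫ ξ : ℝ, K ξ * φ ξ * P e (t - ξ)‖ := by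
            gcongr
            exact hc e he
        _ ≤ _ := by rw [one_mul]; exact h2
    calc ‖G t‖ ^ 2 ≤ (∑ e ∈ E, ∫ ξ : ℝ, C / (1 + ξ ^ 2) * ‖P e (t - ξ)‖) ^ 2 := by
          gcongr
      _ ≤ (E.card : ℝ) * ∑ e ∈ E, (∫ ξ : ℝ, C / (1 + ξ ^ 2) * ‖P e (t - ξ)‖) ^ 2 :=
          sq_sum_le_card_mul_sum_sq
      _ ≤ (E.card : ℝ) * ∑ e ∈ E, (C * Real.pi *
          ∫ ξ : ℝ, C / (1 + ξ ^ 2) * ‖P e (t - ξ)‖ ^ 2) := by
          apply mul_le_mul_of_nonneg_left _ (Nat.cast_nonneg _)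
          exact Finset.sum_le_sum fun e he => cs_bound C M hC (P e) (hP e he) (hM e he) t
      _ = _ := by
          rw [← Finset.mul_sum]
          ring
  have hint : ∀ e ∈ E, Integrable (fun t => ∫ ξ : ℝ, C / (1 + ξ ^ 2) * ‖P e (t - ξ)‖ ^ 2)
      (volume.restrict R) := fun e he => (hF e he).integral_prod_left
  calc ∫ t in R, ‖G t‖ ^ 2 ≤ ∫ t in R, (E.card : ℝ) * (C * Real.pi) *
        ∑ e ∈ E, ∫ ξ : ℝ, C / (1 + ξ ^ 2) * ‖P e (t - ξ)‖ ^ 2 := by
        apply integral_mono_of_nonneg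
        · exact Eventually.of_forall fun t => by positivity
        · exact (integrable_finsetSum _ hint).const_mul _
        · exact Eventually.of_forall hpt
    _ = (E.card : ℝ) * (C * Real.pi) *
        ∑ e ∈ E, ∫ t in R, ∫ ξ : ℝ, C / (1 + ξ ^ 2) * ‖P e (t - ξ)‖ ^ 2 := by
        rw [integral_const_mul, integral_finsetSum _ hint]
    _ ≤ (E.card : ℝ) * (C * Real.pi) * ∑ e ∈ E, B * ∫ ξ, hh ξ := by
        gcongr with e he
        exact hswap e he
    _ = _ := by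
        rw [Finset.sum_const, nsmul_eq_mul]
        ring

/-! ### translations of set integrals -/

private lemma shift_le (g : ℝ → ℝ) (hg : ∀ t, 0 ≤ g t) (S T : Set ℝ) (hS : MeasurableSet S)
    (hT : MeasurableSet T) (ξ : ℝ) (hST : ∀ t, t + ξ ∈ S → t ∈ T) (hi : IntegrableOn g T) :
    ∫ t in S, g (t - ξ) ≤ ∫ t in T, g t := by
  rw [← integral_indicator hS, ← integral_indicator hT,
    ← integral_add_right_eq_self (S.indicator fun t => g (t - ξ)) ξ]
  apply integral_mono_of_nonneg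
  · exact Eventually.of_forall fun t => Set.indicator_nonneg (fun _ _ => hg _) _
  · exact (integrable_indicator_iff hT).2 hi
  · refine Eventually.of_forall fun t => ?_
    show S.indicator (fun t => g (t - ξ)) (t + ξ) ≤ T.indicator g t
    by_cases h : t + ξ ∈ S
    · rw [Set.indicator_of_mem h, Set.indicator_of_mem (hST t h)]
      simp
    · rw [Set.indicator_of_notMem h]
      exact Set.indicator_nonneg (fun _ _ => hg _) _


/-! ### block polynomials -/

private lemma PP8_cont (hb : StBkb) {q : ℕ} (χ : DirichletCharacter ℂ q) (e : Fin 8 → ℕ) :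
    Continuous (PP8 χ e) := by
  unfold PP8
  exact continuous_finsetProd _ fun i _ => hb.2.2.1 q χ i (e i)

private lemma PP8_bd (hb : StBkb) {q : ℕ} (χ : DirichletCharacter ℂ q) (e : Fin 8 → ℕ) (N t : ℝ)
    (he : ∀ i, (e i : ℝ) ≤ N) : ‖PP8 χ e t‖ ≤ (4 * (1 + N)) ^ 8 := by
  unfold PP8
  rw [norm_prod]
  calc ∏ i, ‖bk χ i (e i) t‖ ≤ ∏ _i : Fin 8, (4 * (1 + N)) := by
        refine Finset.prod_le_prod (fun i _ => norm_nonneg _) fun i _ => ?_
        refine (hb.2.2.2 q χ i (e i) t).trans ?_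
        have := he i
        linarith
    _ = _ := by simp

private lemma PP8_mean (hm : StMea8) : ∃ C : ℕ, ∀ {q : ℕ} (χ : DirichletCharacter ℂ q)
    (e : Fin 8 → ℕ) (T : ℝ), 1 ≤ T → ∫ t in (-T)..T, ‖PP8 χ e t‖ ^ 2 ≤
      C * (T / 2 ^ (∑ i, e i) + 1) * (1 + ∑ i, (e i : ℝ)) ^ C := by
  obtain ⟨C, hC⟩ := hm
  refine ⟨C, fun {q} χ e T hT => ?_⟩
  have h := hC q χ e univ 0 T hT
  have e1 : ∀ t, ∏ i, ‖bk χ i (e i) t‖ ^ 2 = ‖PP8 χ e t‖ ^ 2 := by
    intro t
    unfold PP8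
    rw [norm_prod, Finset.prod_pow]
  simp only [e1, zero_sub, zero_add] at h
  exact h

private lemma cf_bd (e : Fin 8 → ℕ) : |cf e| ≤ 15 := by
  unfold cf
  refine (Finset.abs_sum_le_sum_abs _ _).trans ?_
  have h1 : ∀ j ∈ Icc (1 : ℕ) 4, |(-1 : ℝ) ^ (j + 1) * (Nat.choose 4 j : ℝ) *
      (if (∀ i : Fin 8, ((j ≤ (i : ℕ) ∧ (i : ℕ) < 4) ∨ 4 + j ≤ (i : ℕ)) → e i = 0) then 1 else 0)|
      ≤ (Nat.choose 4 j : ℝ) := by
    intro j _
    rw [abs_mul, abs_mul, abs_pow, abs_neg, abs_one, one_pow, one_mul,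
      abs_of_nonneg (Nat.cast_nonneg _)]
    split_ifs <;> simp
  refine (Finset.sum_le_sum h1).trans ?_
  have : (Icc (1 : ℕ) 4) = {1, 2, 3, 4} := by decide
  rw [this]
  norm_num [Nat.choose]

/-! ### large parameters -/

private lemma ev_log (c r : ℝ) (n : ℕ) (hr : 0 < r) :
    ∀ᶠ X : ℕ in atTop, c * Real.log X ^ n ≤ (X : ℝ) ^ r := by
  have h := isLittleO_log_rpow_rpow_atTop (n : ℝ) hr
  have h1 : ∀ᶠ x : ℝ in atTop, c * Real.log x ^ n ≤ x ^ r := by
    have h2 := h.bound (c := 1 / (|c| + 1)) (by positivity)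
    filter_upwards [h2, eventually_ge_atTop (1 : ℝ)] with x hx hx1
    rw [Real.rpow_natCast] at hx
    have h3 : 0 ≤ Real.log x ^ n := pow_nonneg (Real.log_nonneg hx1) _
    have h4 : 0 ≤ x ^ r := Real.rpow_nonneg (by linarith) _
    rw [Real.norm_of_nonneg h3, Real.norm_of_nonneg h4] at hx
    have h5 : c * Real.log x ^ n ≤ (|c| + 1) * Real.log x ^ n := by
      gcongr
      have := le_abs_self c
      linarith
    calc c * Real.log x ^ n ≤ (|c| + 1) * Real.log x ^ n := h5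
      _ ≤ (|c| + 1) * (1 / (|c| + 1) * x ^ r) := by gcongr
      _ = x ^ r := by field_simp
  exact tendsto_natCast_atTop_atTop.eventually h1


/-- the minimal exponent -/
private lemma exists_u8 (X : ℕ) (hX : 1 ≤ X) (hL : 5 ≤ Real.log X) : ∃ u : ℕ,
    3 * X ≤ 2 ^ (4 * u) ∧ (2 : ℝ) ^ u ≤ 4 * (X : ℝ) ^ (1 / 4 : ℝ) ∧
    (4 * u + 1 : ℝ) ≤ 7 * Real.log X := by
  set u := Nat.clog 16 (3 * X) with hu
  have hX0 : (0 : ℝ) < X := by exact_mod_cast hX
  have h1 : 16 ^ u < 48 * X := by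
    have h2 := Nat.pow_pred_clog_lt_self (b := 16) (by norm_num) (x := 3 * X) (by omega)
    rw [← hu] at h2
    have h3 : 0 < u := by
      rw [hu]
      exact Nat.clog_pos (by norm_num) (by omega)
    obtain ⟨v, hv⟩ : ∃ v, u = v + 1 := ⟨u - 1, by omega⟩
    rw [hv] at h2 ⊢
    simp only [Nat.pred_eq_sub_one, Nat.add_sub_cancel] at h2
    rw [pow_succ]
    omega
  have h1' : (16 : ℝ) ^ u ≤ 48 * X := by exact_mod_cast h1.le
  refine ⟨u, ?_, ?_, ?_⟩
  · have : (2 : ℕ) ^ (4 * u) = 16 ^ u := by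
      rw [pow_mul]; norm_num
    rw [this, hu]
    exact Nat.le_pow_clog (by norm_num) _
  · have h2 : ((2 : ℝ) ^ u) ^ 4 ≤ (4 * (X : ℝ) ^ (1 / 4 : ℝ)) ^ 4 := by
      have e1 : ((2 : ℝ) ^ u) ^ 4 = 16 ^ u := by
        rw [← pow_mul, mul_comm u 4, pow_mul]; norm_num
      have e2 : (4 * (X : ℝ) ^ (1 / 4 : ℝ)) ^ 4 = 256 * X := by
        rw [mul_pow, ← Real.rpow_natCast ((X : ℝ) ^ (1 / 4 : ℝ)) 4, ← Real.rpow_mul hX0.le]
        norm_num
      rw [e1, e2]
      linarith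
    exact le_of_pow_le_pow_left₀ (by norm_num) (by positivity) h2
  · have h3 : (u : ℝ) * Real.log 16 ≤ Real.log 48 + Real.log X := by
      rw [← Real.log_pow, ← Real.log_mul (by norm_num) hX0.ne']
      exact Real.log_le_log (by positivity) h1'
    have h16 : Real.log 16 = 4 * Real.log 2 := by
      rw [show (16 : ℝ) = 2 ^ 4 by norm_num, Real.log_pow]; norm_num
    have h48 : Real.log 48 ≤ 6 * Real.log 2 := by
      have : (6 : ℝ) * Real.log 2 = Real.log (2 ^ 6) := by rw [Real.log_pow]; norm_num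
      rw [this]
      exact Real.log_le_log (by norm_num) (by norm_num)
    have hl2 := Real.log_two_gt_d9
    have hl2' := Real.log_two_lt_d9
    have h6 : (0 : ℝ) ≤ u := Nat.cast_nonneg u
    rw [h16] at h3
    have h7 : (4 * u : ℝ) * Real.log 2 ≤ 6 * Real.log 2 + Real.log X := by linarith
    have h8 : (4 * u : ℝ) * (2 / 3) ≤ 6 * Real.log 2 + Real.log X := by nlinarith
    linarith

theorem hHIFU (h1 : StDec4) (h2 : StTupu) (h3 : StMea8) (h4 : StBkb) : StHifu := by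
  intro w hw τ hτ A D
  obtain ⟨K₀, C₁, hC₁, hKc₀, hKb₀, hGA₀⟩ := h1 w hw
  -- rescale the kernel
  set C : ℝ := 30 * C₁ with hCdef
  have hC : 0 < C := by positivity
  set K : ℝ → ℂ := fun ξ => 15 * K₀ ξ with hK
  have hKb : ∀ ξ, ‖K ξ‖ ≤ C / (1 + ξ ^ 2) := by
    intro ξ
    simp only [hK]
    rw [norm_mul]
    have e1 : ‖(15 : ℂ)‖ = 15 := by norm_num
    rw [e1]
    have e2 : C₁ / (1 + ξ ^ 4) ≤ 2 * C₁ / (1 + ξ ^ 2) := by
      rw [div_le_div_iff₀ (by positivity) (by positivity)]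
      have : 1 + ξ ^ 2 ≤ 2 * (1 + ξ ^ 4) := by nlinarith [sq_nonneg (ξ ^ 2 - 1), sq_nonneg ξ]
      nlinarith
    calc 15 * ‖K₀ ξ‖ ≤ 15 * (2 * C₁ / (1 + ξ ^ 2)) := by
          gcongr
          exact (hKb₀ ξ).trans e2
      _ = C / (1 + ξ ^ 2) := by rw [hCdef]; ring
  obtain ⟨C₀, hmean⟩ := PP8_mean h3
  obtain ⟨B1T, X1, htup⟩ := h2 τ hτ (A + 17) D
  set I : ℝ := ∫ ξ, hh ξ with hI
  have hI0 : 0 ≤ I := integral_nonneg fun ξ => (hh_pos ξ).le
  set b : ℕ := max B1T (A + C₀ + 17) with hb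
  set B1 : ℕ := 4 * b with hB1
  -- the constants
  set κ : ℝ := 7 ^ 16 * (C * Real.pi) * (C * I) with hκ
  have hκ0 : 0 ≤ κ := by positivity
  set c₁ : ℝ := 33 * C₀ * 57 ^ C₀ with hc₁
  have hc₁0 : 0 ≤ c₁ := by positivity
  obtain ⟨X2, hX2⟩ : ∃ X2 : ℕ, ∀ X : ℕ, X2 ≤ X → X1 ≤ X ∧ 5 ≤ Real.log X ∧
      2 * κ * (1 + 2 * c₁) ≤ Real.log X ∧
      2 * κ * (2 * 32 ^ 16) * Real.log X ^ (A + 32) ≤ (X : ℝ) ^ (3 / 20 : ℝ) ∧
      1 ≤ X := by
    have hlog : Tendsto (fun X : ℕ => Real.log (X : ℝ)) atTop atTop :=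
      Real.tendsto_log_atTop.comp tendsto_natCast_atTop_atTop
    have h := (eventually_ge_atTop X1).and ((hlog.eventually_ge_atTop 5).and
      ((hlog.eventually_ge_atTop (2 * κ * (1 + 2 * c₁))).and
      ((ev_log (2 * κ * (2 * 32 ^ 16)) (3 / 20) (A + 32) (by norm_num)).and
      (eventually_ge_atTop 1))))
    obtain ⟨X2, hX2⟩ := eventually_atTop.1 h
    refine ⟨X2, fun X hX => ?_⟩
    obtain ⟨a1, a2, a3, a4, a7⟩ := hX2 X hX
    exact ⟨a1, a2, a3, a4, a7⟩
  refine ⟨B1, X2, fun X hX q _ χ hq => ?_⟩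
  obtain ⟨hX1, hL5, hLκ, hL4, hX0⟩ := hX2 X hX
  set L : ℝ := Real.log X with hL
  have hL1 : 1 ≤ L := by linarith
  have hL0 : 0 < L := by linarith
  have hXr : (1 : ℝ) ≤ X := by exact_mod_cast hX0
  have hXr0 : (0 : ℝ) < X := by linarith
  set Z : ℝ := (X : ℝ) ^ τ with hZ
  have hZ0 : 0 < Z := Real.rpow_pos_of_pos hXr0 _
  have hZ35 : Z ≤ (X : ℝ) ^ (3 / 5 : ℝ) := Real.rpow_le_rpow_of_exponent_le hXr hτ.le
  have hZX : Z ≤ X := by
    calc Z ≤ (X : ℝ) ^ (1 : ℝ) := Real.rpow_le_rpow_of_exponent_le hXr (by linarith)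
      _ = X := Real.rpow_one _
  obtain ⟨u, hu1, hu2, hu3⟩ := exists_u8 X hX0 hL5
  set R : Set ℝ := {t : ℝ | L ^ B1 ≤ |t| ∧ |t| ≤ Z} with hR
  have hRm : MeasurableSet R := by
    apply MeasurableSet.inter
    · exact (isClosed_le continuous_const continuous_abs).measurableSet
    · exact (isClosed_le continuous_abs continuous_const).measurableSet
  have hRsub : R ⊆ Set.Icc (-Z) Z := by
    intro t ht
    exact abs_le.1 ht.2
  have hRfin : volume R ≠ ⊤ := by
    refine ((measure_mono hRsub).trans_lt ?_).ne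
    rw [Real.volume_Icc]
    exact ENNReal.ofReal_lt_top
  have hRvol : volume.real R ≤ 2 * Z := by
    calc volume.real R ≤ volume.real (Set.Icc (-Z) Z) :=
          measureReal_mono hRsub (by rw [Real.volume_Icc]; exact ENNReal.ofReal_ne_top)
      _ = 2 * Z := by
          rw [Real.volume_real_Icc_of_le (by linarith)]
          ring
  set E := (EW u).filter (fun e => X ≤ 16 * 2 ^ (∑ i, e i) ∧ 2 ^ (∑ i, e i) ≤ 1024 * X) with hE
  have hEcard : (E.card : ℝ) ≤ (7 * L) ^ 8 := by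
    have h1 : E.card ≤ (4 * u + 1) ^ 8 := by
      calc E.card ≤ (EW u).card := Finset.card_filter_le _ _
        _ ≤ (Fintype.piFinset (fun _ : Fin 8 => range (4 * u + 1))).card :=
            Finset.card_filter_le _ _
        _ = (4 * u + 1) ^ 8 := by simp
    calc (E.card : ℝ) ≤ ((4 * u + 1 : ℕ) : ℝ) ^ 8 := by exact_mod_cast h1
      _ ≤ (7 * L) ^ 8 := by
          gcongr
          push_cast
          exact hu3
  have hEmem : ∀ e ∈ E, (∀ i, (e i : ℝ) ≤ 7 * L) ∧ (∀ i : Fin 8, (i : ℕ) < 4 → e i ≤ u) ∧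
      X ≤ 16 * 2 ^ (∑ i, e i) ∧ 2 ^ (∑ i, e i) ≤ 1024 * X := by
    intro e he
    rw [hE, Finset.mem_filter, EW, Finset.mem_filter, Fintype.mem_piFinset] at he
    obtain ⟨⟨h1, h2⟩, h4, h5⟩ := he
    refine ⟨fun i => ?_, h2, h4, h5⟩
    have := h1 i
    rw [Finset.mem_range] at this
    have h6 : e i ≤ 4 * u + 1 := by omega
    have h7 : (e i : ℝ) ≤ 4 * u + 1 := by exact_mod_cast h6
    linarith
  set M : ℝ := (32 * L) ^ 8 with hM
  have hPM : ∀ e ∈ E, ∀ t, ‖PP8 χ e t‖ ≤ M := by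
    intro e he t
    refine (PP8_bd h4 χ e (7 * L) t (hEmem e he).1).trans ?_
    rw [hM]
    have h5 : 4 * (1 + 7 * L) ≤ 32 * L := by linarith
    exact pow_le_pow_left₀ (by positivity) h5 8
  set Y : ℝ := L ^ B1 / 2 with hY
  have hY0 : 0 < Y := by positivity
  set Bd : ℝ := C * (1 / L ^ (A + 17) + Y ^ (-(3 / 4) : ℝ) * (c₁ * L ^ C₀) +
    (X : ℝ) ^ (-(3 / 4) : ℝ) * (2 * Z * M ^ 2)) with hBd
  have hT1 : 0 ≤ 1 / L ^ (A + 17) := by positivity
  have hT2 : 0 ≤ Y ^ (-(3 / 4) : ℝ) * (c₁ * L ^ C₀) := by positivity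
  have hT3 : 0 ≤ (X : ℝ) ^ (-(3 / 4) : ℝ) * (2 * Z * M ^ 2) := by positivity
  -- the integrals over `R`
  have hJ : ∀ e ∈ E, ∀ ξ : ℝ, C / (1 + ξ ^ 2) * ∫ t in R, ‖PP8 χ e (t - ξ)‖ ^ 2 ≤
      Bd * hh ξ := by
    intro e he ξ
    obtain ⟨g1, g2, g4, g5⟩ := hEmem e he
    have hk0 : 0 ≤ C / (1 + ξ ^ 2) := by positivity
    have hJ0 : 0 ≤ ∫ t in R, ‖PP8 χ e (t - ξ)‖ ^ 2 := integral_nonneg fun t => by positivity
    have hhp := hh_pos ξ
    have hk : C / (1 + ξ ^ 2) = C * (1 / (1 + ξ ^ 2)) := by ring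
    rcases le_or_gt |ξ| Y with hξ | hξ
    · -- small frequencies
      have h1 : ∫ t in R, ‖PP8 χ e (t - ξ)‖ ^ 2 ≤ 1 / L ^ (A + 17) := by
        have h2 := htup X hX1 q χ e hq ?_ g4 g5
        · refine le_trans ?_ h2
          apply shift_le (fun t => ‖PP8 χ e t‖ ^ 2) (fun t => by positivity) R _ hRm
          · apply MeasurableSet.inter
            · exact (isClosed_le continuous_const continuous_abs).measurableSet
            · exact (isClosed_le continuous_abs continuous_const).measurableSet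
          · intro t ht
            have h3 : |t| ≥ |t + ξ| - |ξ| := by
              have := abs_sub_abs_le_abs_sub (t + ξ) ξ
              rw [show t + ξ - ξ = t by ring] at this
              linarith
            have h4 : |t| ≤ |t + ξ| + |ξ| := by
              have := abs_sub (t + ξ) ξ
              rw [show t + ξ - ξ = t by ring] at this
              exact this
            have h5 : L ^ B1T ≤ L ^ B1 := by
              apply pow_le_pow_right₀ hL1
              have := le_max_left B1T (A + C₀ + 17)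
              omega
            have h6 : Y ≤ Z := by
              have h7 := ht.1
              have h8 := ht.2
              have h9 : 0 < L ^ B1 := by positivity
              rw [hY]
              linarith
            refine ⟨?_, ?_⟩
            · have := ht.1
              rw [hY] at hξ
              linarith
            · have := ht.2
              linarith
          · apply IntegrableOn.mono_set (t := Set.Icc (-(2 * Z)) (2 * Z))
            · exact ((PP8_cont h4 χ e).norm.pow 2).integrableOn_Icc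
            · intro t ht
              exact abs_le.1 ht.2
        · intro i hi
          have h3 : (2 : ℝ) ^ e i ≤ 2 ^ u := pow_le_pow_right₀ (by norm_num) (g2 i hi)
          linarith
      calc C / (1 + ξ ^ 2) * ∫ t in R, ‖PP8 χ e (t - ξ)‖ ^ 2 ≤
          (C * hh ξ) * (1 / L ^ (A + 17)) := by
            apply mul_le_mul _ h1 hJ0 (by positivity)
            rw [hk]
            exact mul_le_mul_of_nonneg_left (inv_le_hh ξ) hC.le
        _ = C * (1 / L ^ (A + 17)) * hh ξ := by ring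
        _ ≤ Bd * hh ξ := by
            apply mul_le_mul_of_nonneg_right _ hhp.le
            rw [hBd]
            apply mul_le_mul_of_nonneg_left _ hC.le
            linarith
    · rcases le_or_gt |ξ| X with hξ2 | hξ2
      · -- middle frequencies
        have h1 : ∫ t in R, ‖PP8 χ e (t - ξ)‖ ^ 2 ≤ c₁ * L ^ C₀ := by
          have h2 := hmean χ e (2 * X) (by linarith)
          have h3 : ∫ t in R, ‖PP8 χ e (t - ξ)‖ ^ 2 ≤
              ∫ t in Set.Icc (-(2 * (X : ℝ))) (2 * X), ‖PP8 χ e t‖ ^ 2 := by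
            apply shift_le (fun t => ‖PP8 χ e t‖ ^ 2) (fun t => by positivity) R _ hRm
              measurableSet_Icc
            · intro t ht
              have h4 : |t| ≤ |t + ξ| + |ξ| := by
                have := abs_sub (t + ξ) ξ
                rw [show t + ξ - ξ = t by ring] at this
                exact this
              have h5 := ht.2
              exact abs_le.1 (by linarith)
            · exact ((PP8_cont h4 χ e).norm.pow 2).integrableOn_Icc
          have h4 : ∫ t in Set.Icc (-(2 * (X : ℝ))) (2 * X), ‖PP8 χ e t‖ ^ 2 =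
              ∫ t in (-(2 * (X : ℝ)))..(2 * X), ‖PP8 χ e t‖ ^ 2 := by
            rw [intervalIntegral.integral_of_le (by linarith), integral_Icc_eq_integral_Ioc]
          rw [h4] at h3
          refine (h3.trans h2).trans ?_
          have h5 : 2 * (X : ℝ) / 2 ^ (∑ i, e i) + 1 ≤ 33 := by
            have h6 : (X : ℝ) ≤ 16 * 2 ^ (∑ i, e i) := by exact_mod_cast g4
            have h7 : 2 * (X : ℝ) / 2 ^ (∑ i, e i) ≤ 32 := by
              rw [div_le_iff₀ (by positivity)]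
              linarith
            linarith
          have h6 : 1 + ∑ i, (e i : ℝ) ≤ 57 * L := by
            have h7 : ∑ i : Fin 8, (e i : ℝ) ≤ ∑ _i : Fin 8, 7 * L :=
              Finset.sum_le_sum fun i _ => g1 i
            have h8 : ∑ _i : Fin 8, 7 * L = 56 * L := by
              rw [Finset.sum_const, Finset.card_univ, Fintype.card_fin, nsmul_eq_mul]
              push_cast
              ring
            linarith
          have h7 : 0 ≤ 1 + ∑ i, (e i : ℝ) := by positivity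
          calc (C₀ : ℝ) * (2 * X / 2 ^ (∑ i, e i) + 1) * (1 + ∑ i, (e i : ℝ)) ^ C₀
              ≤ C₀ * 33 * (57 * L) ^ C₀ := by gcongr
            _ = c₁ * L ^ C₀ := by
                rw [hc₁, mul_pow]
                ring
        calc C / (1 + ξ ^ 2) * ∫ t in R, ‖PP8 χ e (t - ξ)‖ ^ 2 ≤
            (C * (Y ^ (-(3 / 4) : ℝ) * hh ξ)) * (c₁ * L ^ C₀) := by
              apply mul_le_mul _ h1 hJ0 (by positivity)
              rw [hk]
              exact mul_le_mul_of_nonneg_left (inv_le_hh' ξ Y hY0 hξ.le) hC.le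
          _ = C * (Y ^ (-(3 / 4) : ℝ) * (c₁ * L ^ C₀)) * hh ξ := by ring
          _ ≤ Bd * hh ξ := by
              apply mul_le_mul_of_nonneg_right _ hhp.le
              rw [hBd]
              apply mul_le_mul_of_nonneg_left _ hC.le
              linarith
      · -- large frequencies
        have h1 : ∫ t in R, ‖PP8 χ e (t - ξ)‖ ^ 2 ≤ 2 * Z * M ^ 2 := by
          calc ∫ t in R, ‖PP8 χ e (t - ξ)‖ ^ 2 ≤ ∫ t in R, M ^ 2 := by
                apply integral_mono_of_nonneg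
                · exact Eventually.of_forall fun t => by positivity
                · exact integrableOn_const hRfin
                · refine Eventually.of_forall fun t => ?_
                  exact pow_le_pow_left₀ (norm_nonneg _) (hPM e he _) 2
            _ = volume.real R * M ^ 2 := by rw [setIntegral_const, smul_eq_mul]
            _ ≤ _ := by gcongr
        calc C / (1 + ξ ^ 2) * ∫ t in R, ‖PP8 χ e (t - ξ)‖ ^ 2 ≤
            (C * ((X : ℝ) ^ (-(3 / 4) : ℝ) * hh ξ)) * (2 * Z * M ^ 2) := by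
              apply mul_le_mul _ h1 hJ0 (by positivity)
              rw [hk]
              exact mul_le_mul_of_nonneg_left (inv_le_hh' ξ X hXr0 hξ2.le) hC.le
          _ = C * ((X : ℝ) ^ (-(3 / 4) : ℝ) * (2 * Z * M ^ 2)) * hh ξ := by ring
          _ ≤ Bd * hh ξ := by
              apply mul_le_mul_of_nonneg_right _ hhp.le
              rw [hBd]
              apply mul_le_mul_of_nonneg_left _ hC.le
              linarith
  have hGA : ∀ t, GA w χ X t = ∑ e ∈ E, (((cf e / 15 : ℝ) : ℂ)) *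
      ∫ ξ : ℝ, K ξ * Complex.exp (((-(ξ * Real.log X) : ℝ) : ℂ) * Complex.I) *
        PP8 χ e (t - ξ) := by
    intro t
    rw [hGA₀ q χ X u t hX0 hu1]
    refine Finset.sum_congr rfl fun e _ => ?_
    have e1 : (fun ξ : ℝ => K ξ * Complex.exp (((-(ξ * Real.log X) : ℝ) : ℂ) * Complex.I) *
        PP8 χ e (t - ξ)) = fun ξ : ℝ => 15 * (K₀ ξ *
        Complex.exp (((-(ξ * Real.log X) : ℝ) : ℂ) * Complex.I) * PP8 χ e (t - ξ)) := by
      funext ξ
      simp only [hK]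
      ring
    rw [e1, integral_const_mul]
    push_cast
    ring
  have hmain := conv_bound E K C hC hKb (fun e => PP8 χ e) (fun e _ => PP8_cont h4 χ e) M hPM
    (fun ξ => Complex.exp (((-(ξ * Real.log X) : ℝ) : ℂ) * Complex.I))
    (fun ξ => Complex.norm_exp_ofReal_mul_I _)
    (fun e => ((cf e / 15 : ℝ) : ℂ))
    (fun e _ => by
      rw [Complex.norm_real, Real.norm_eq_abs, abs_div, abs_of_pos (by norm_num : (0 : ℝ) < 15)]
      rw [div_le_one (by norm_num)]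
      exact cf_bd e) (fun t => GA w χ X t)
    hGA R hRfin Bd hJ
  refine hmain.trans ?_
  -- numerics
  have hLb : Y ^ (-(3 / 4) : ℝ) ≤ 2 / L ^ (A + C₀ + 17) := by
    have h1 : Y ^ (3 / 4 : ℝ) = L ^ (3 * b) / 2 ^ (3 / 4 : ℝ) := by
      rw [hY, Real.div_rpow (by positivity) (by norm_num)]
      congr 1
      rw [← Real.rpow_natCast, ← Real.rpow_mul hL0.le, ← Real.rpow_natCast, hB1]
      congr 1
      push_cast
      ring
    rw [Real.rpow_neg hY0.le, h1, inv_div]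
    have h2 : (2 : ℝ) ^ (3 / 4 : ℝ) ≤ 2 := by
      calc (2 : ℝ) ^ (3 / 4 : ℝ) ≤ 2 ^ (1 : ℝ) :=
            Real.rpow_le_rpow_of_exponent_le (by norm_num) (by norm_num)
        _ = 2 := Real.rpow_one 2
    have h3 : L ^ (A + C₀ + 17) ≤ L ^ (3 * b) := by
      apply pow_le_pow_right₀ hL1
      have := le_max_right B1T (A + C₀ + 17)
      omega
    gcongr
  have hX34 : (X : ℝ) ^ (-(3 / 4) : ℝ) * Z ≤ 1 / (X : ℝ) ^ (3 / 20 : ℝ) := by
    calc (X : ℝ) ^ (-(3 / 4) : ℝ) * Z ≤ (X : ℝ) ^ (-(3 / 4) : ℝ) * (X : ℝ) ^ (3 / 5 : ℝ) := by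
          gcongr
      _ = 1 / (X : ℝ) ^ (3 / 20 : ℝ) := by
          rw [← Real.rpow_add hXr0, show (-(3 / 4) + 3 / 5 : ℝ) = -(3 / 20) by norm_num,
            Real.rpow_neg hXr0.le, one_div]
  have hX14 : 0 < (X : ℝ) ^ (3 / 20 : ℝ) := by positivity
  have hBdle : Bd ≤ C * ((1 + 2 * c₁) / L ^ (A + 17) +
      2 * 32 ^ 16 * L ^ 16 / (X : ℝ) ^ (3 / 20 : ℝ)) := by
    rw [hBd]
    apply mul_le_mul_of_nonneg_left _ hC.le
    have h1 : Y ^ (-(3 / 4) : ℝ) * (c₁ * L ^ C₀) ≤ 2 * c₁ / L ^ (A + 17) := by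
      calc Y ^ (-(3 / 4) : ℝ) * (c₁ * L ^ C₀) ≤
          2 / L ^ (A + C₀ + 17) * (c₁ * L ^ C₀) := by gcongr
        _ = 2 * c₁ / L ^ (A + 17) := by
            have : L ^ (A + C₀ + 17) = L ^ (A + 17) * L ^ C₀ := by
              rw [← pow_add]
              congr 1
              ring
            rw [this]
            field_simp
    have h2 : (X : ℝ) ^ (-(3 / 4) : ℝ) * (2 * Z * M ^ 2) ≤
        2 * 32 ^ 16 * L ^ 16 / (X : ℝ) ^ (3 / 20 : ℝ) := by
      calc (X : ℝ) ^ (-(3 / 4) : ℝ) * (2 * Z * M ^ 2) =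
          ((X : ℝ) ^ (-(3 / 4) : ℝ) * Z) * (2 * M ^ 2) := by ring
        _ ≤ 1 / (X : ℝ) ^ (3 / 20 : ℝ) * (2 * M ^ 2) := by gcongr
        _ = _ := by
            have : M ^ 2 = 32 ^ 16 * L ^ 16 := by
              rw [hM, ← pow_mul, mul_pow]
            rw [this]
            ring
    have h3 : (1 + 2 * c₁) / L ^ (A + 17) = 1 / L ^ (A + 17) + 2 * c₁ / L ^ (A + 17) := by ring
    rw [h3]
    linarith
  have hBd0 : 0 ≤ Bd := by
    rw [hBd]
    positivity
  calc (E.card : ℝ) ^ 2 * (C * Real.pi) * (Bd * ∫ ξ, hh ξ) ≤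
      ((7 * L) ^ 8) ^ 2 * (C * Real.pi) * ((C * ((1 + 2 * c₁) / L ^ (A + 17) +
        2 * 32 ^ 16 * L ^ 16 / (X : ℝ) ^ (3 / 20 : ℝ))) * I) := by
        rw [← hI]
        gcongr
    _ = κ * (1 + 2 * c₁) * L ^ 16 / L ^ (A + 17) +
        κ * (2 * 32 ^ 16) * (L ^ 16 * L ^ 16) / (X : ℝ) ^ (3 / 20 : ℝ) := by
        rw [hκ]
        ring
    _ ≤ (1 / 2) * (1 / L ^ A) + (1 / 2) * (1 / L ^ A) := by
        apply add_le_add
        · have h1 : L ^ (A + 17) = L ^ A * (L ^ 16 * L) := by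
            rw [← pow_succ, ← pow_add]
          rw [h1, div_le_iff₀ (by positivity)]
          have h2 : κ * (1 + 2 * c₁) ≤ L / 2 := by linarith
          calc κ * (1 + 2 * c₁) * L ^ 16 ≤ L / 2 * L ^ 16 := by gcongr
            _ = 1 / 2 * (1 / L ^ A) * (L ^ A * (L ^ 16 * L)) := by field_simp
        · rw [div_le_iff₀ hX14]
          have h1 : L ^ 16 * L ^ 16 * L ^ A = L ^ (A + 32) := by
            rw [← pow_add, ← pow_add]
            congr 1
            ring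
          have h2 : κ * (2 * 32 ^ 16) * (L ^ 16 * L ^ 16) * L ^ A ≤
              (X : ℝ) ^ (3 / 20 : ℝ) / 2 := by
            calc κ * (2 * 32 ^ 16) * (L ^ 16 * L ^ 16) * L ^ A =
                κ * (2 * 32 ^ 16) * (L ^ 16 * L ^ 16 * L ^ A) := by ring
              _ = κ * (2 * 32 ^ 16) * L ^ (A + 32) := by rw [h1]
              _ ≤ (X : ℝ) ^ (3 / 20 : ℝ) / 2 := by linarith
          have h3 : κ * (2 * 32 ^ 16) * (L ^ 16 * L ^ 16) ≤
              (X : ℝ) ^ (3 / 20 : ℝ) / 2 / L ^ A := by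
            rw [le_div_iff₀ (by positivity)]
            exact h2
          calc κ * (2 * 32 ^ 16) * (L ^ 16 * L ^ 16) ≤ (X : ℝ) ^ (3 / 20 : ℝ) / 2 / L ^ A := h3
            _ = 1 / 2 * (1 / L ^ A) * (X : ℝ) ^ (3 / 20 : ℝ) := by field_simp
    _ = 1 / L ^ A := by ring

end Pool.Agent.Helper31.SU
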