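import Pool.Agent.Helper58.SU.StP

/-!
# Project SU, module JB
-/

set_option autoImplicit false

namespace Pool.Agent.Helper31.SU

open Finset ArithmeticFunction MeasureTheory
open Pool.Agent.Helper58.SU

theorem hJB : StJb := by
  intro y h β t hy hh
  have hab : Real.log y ≤ Real.log (y + h) := Real.log_le_log hy (by linarith)
  have hyh : 0 < y + h := by linarith
  constructor
  · have h1 : ‖JJb y h β t‖ ≤ 1 * |Real.log (y + h) - Real.log y| := by
      unfold JJb
      refine intervalIntegral.norm_integral_le_of_norm_le_const fun v _ => ?_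
      rw [Complex.norm_exp_ofReal_mul_I]
    rw [one_mul, abs_of_nonneg (by linarith)] at h1
    refine h1.trans ?_
    rw [← Real.log_div hyh.ne' hy.ne']
    have h2 := Real.log_le_sub_one_of_pos (div_pos hyh hy)
    refine h2.trans (le_of_eq ?_)
    field_simp
    ring
  · intro h1 h2
    set t0 := t + 2 * Real.pi * β * y with ht0
    set m := 11 / 20 * |t0| with hm
    have hmpos : 0 < m := by positivity
    have hpi : Real.pi < 3.15 := Real.pi_lt_d2
    have hpi0 := Real.pi_pos
    -- the bound of the derivative of the phase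
    have hβh : 2 * Real.pi * (|β| * h) ≤ 9 / 20 * |t0| := by
      have h3 : 0 ≤ |β| * h := by positivity
      nlinarith
    have hv : ∀ v ∈ Set.uIcc (Real.log y) (Real.log (y + h)), y ≤ Real.exp v ∧
        Real.exp v ≤ y + h := by
      intro v hv
      rw [Set.uIcc_of_le hab] at hv
      constructor
      · calc y = Real.exp (Real.log y) := (Real.exp_log hy).symm
          _ ≤ _ := Real.exp_le_exp.2 hv.1
      · calc Real.exp v ≤ Real.exp (Real.log (y + h)) := Real.exp_le_exp.2 hv.2
          _ = _ := Real.exp_log hyh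
    set D : ℝ → ℝ := fun v => 2 * Real.pi * β * Real.exp v + t with hD
    have hDm : ∀ v ∈ Set.uIcc (Real.log y) (Real.log (y + h)), m ≤ |D v| := by
      intro v hv'
      obtain ⟨e1, e2⟩ := hv v hv'
      have h3 : |D v - t0| ≤ 2 * Real.pi * (|β| * h) := by
        have : D v - t0 = 2 * Real.pi * (β * (Real.exp v - y)) := by simp only [hD, ht0]; ring
        rw [this, abs_mul (2 * Real.pi), abs_mul β,
          abs_of_pos (by positivity : (0 : ℝ) < 2 * Real.pi),
          abs_of_nonneg (by linarith : 0 ≤ Real.exp v - y)]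
        gcongr
        linarith
      have h4 : |t0| ≤ |D v| + |D v - t0| := by
        have := abs_sub_abs_le_abs_sub t0 (D v)
        rw [abs_sub_comm] at this
        linarith
      rw [hm]
      linarith
    have hD0 : ∀ v ∈ Set.uIcc (Real.log y) (Real.log (y + h)), D v ≠ 0 := by
      intro v hv' h0
      have := hDm v hv'
      rw [h0, abs_zero] at this
      linarith
    set E : ℝ → ℂ := fun v =>
      Complex.exp (((2 * Real.pi * β * Real.exp v + t * v : ℝ) : ℂ) * Complex.I) with hE
    have hEn : ∀ v, ‖E v‖ = 1 := fun v => Complex.norm_exp_ofReal_mul_I _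
    have hEd : ∀ v, HasDerivAt E (E v * ((D v : ℂ) * Complex.I)) v := by
      intro v
      have e1 : HasDerivAt (fun v : ℝ => 2 * Real.pi * β * Real.exp v + t * v) (D v) v := by
        refine (((Real.hasDerivAt_exp v).const_mul (2 * Real.pi * β)).fun_add
          ((hasDerivAt_id v).const_mul t)).congr_deriv ?_
        simp only [hD]; ring
      exact (e1.ofReal_comp.mul_const Complex.I).cexp
    have hDd : ∀ v, HasDerivAt (fun v => (D v : ℂ) * Complex.I)
        (((2 * Real.pi * β * Real.exp v : ℝ) : ℂ) * Complex.I) v := by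
      intro v
      have e1 : HasDerivAt D (2 * Real.pi * β * Real.exp v) v :=
        ((Real.hasDerivAt_exp v).const_mul (2 * Real.pi * β)).add_const t
      exact e1.ofReal_comp.mul_const Complex.I
    have hDc : Continuous D := by simp only [hD]; fun_prop
    have hEc : Continuous E := by simp only [hE]; fun_prop
    set R : ℝ → ℂ := fun v => E v * (((2 * Real.pi * β * Real.exp v : ℝ) : ℂ) * Complex.I) /
      ((D v : ℂ) * Complex.I) ^ 2 with hR
    have hRc : ContinuousOn R (Set.uIcc (Real.log y) (Real.log (y + h))) := by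
      refine ContinuousOn.div (Continuous.continuousOn (by fun_prop))
        (Continuous.continuousOn (by fun_prop)) ?_
      intro v hv'
      exact pow_ne_zero 2 (mul_ne_zero (Complex.ofReal_ne_zero.2 (hD0 v hv')) Complex.I_ne_zero)
    have hFTC : ∫ v in (Real.log y)..(Real.log (y + h)), (E v - R v) =
        E (Real.log (y + h)) / ((D (Real.log (y + h)) : ℂ) * Complex.I) -
          E (Real.log y) / ((D (Real.log y) : ℂ) * Complex.I) := by
      refine intervalIntegral.integral_eq_sub_of_hasDerivAt
        (f := fun v => E v / ((D v : ℂ) * Complex.I)) ?_ ?_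
      · intro v hv'
        have hne : ((D v : ℂ) * Complex.I) ≠ 0 :=
          mul_ne_zero (Complex.ofReal_ne_zero.2 (hD0 v hv')) Complex.I_ne_zero
        refine ((hEd v).div (hDd v) hne).congr_deriv ?_
        simp only [hR]
        generalize (((2 * Real.pi * β * Real.exp v : ℝ) : ℂ) * Complex.I) = p
        generalize ((D v : ℂ) * Complex.I) = w at hne ⊢
        field_simp
      · exact (hEc.continuousOn.sub hRc).intervalIntegrable
    have hRi : IntervalIntegrable R volume (Real.log y) (Real.log (y + h)) :=
      hRc.intervalIntegrable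
    rw [intervalIntegral.integral_sub (hEc.intervalIntegrable _ _) hRi] at hFTC
    have hJ : JJb y h β t = ∫ v in (Real.log y)..(Real.log (y + h)), E v := rfl
    have hJ2 : JJb y h β t = (E (Real.log (y + h)) / ((D (Real.log (y + h)) : ℂ) * Complex.I) -
          E (Real.log y) / ((D (Real.log y) : ℂ) * Complex.I)) +
          ∫ v in (Real.log y)..(Real.log (y + h)), R v := by
      rw [hJ, ← hFTC]; ring
    have hb : ∀ v ∈ Set.uIcc (Real.log y) (Real.log (y + h)),
        ‖E v / ((D v : ℂ) * Complex.I)‖ ≤ 1 / m := by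
      intro v hv'
      rw [norm_div, hEn, norm_mul, Complex.norm_I, mul_one, Complex.norm_real, Real.norm_eq_abs]
      exact one_div_le_one_div_of_le hmpos (hDm v hv')
    have hRn : ‖∫ v in (Real.log y)..(Real.log (y + h)), R v‖ ≤
        ∫ v in (Real.log y)..(Real.log (y + h)), 2 * Real.pi * |β| / m ^ 2 * Real.exp v := by
      refine intervalIntegral.norm_integral_le_of_norm_le hab ?_
        (Continuous.intervalIntegrable (by fun_prop) _ _)
      refine Filter.Eventually.of_forall fun v hv' => ?_
      have hv'' : v ∈ Set.uIcc (Real.log y) (Real.log (y + h)) := by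
        rw [Set.uIcc_of_le hab]; exact ⟨hv'.1.le, hv'.2⟩
      simp only [hR]
      have n1 : ‖((2 * Real.pi * β * Real.exp v : ℝ) : ℂ) * Complex.I‖ =
          2 * Real.pi * |β| * Real.exp v := by
        rw [norm_mul, Complex.norm_I, mul_one, Complex.norm_real, Real.norm_eq_abs,
          abs_mul (2 * Real.pi * β), abs_mul (2 * Real.pi),
          abs_of_pos (by positivity : (0 : ℝ) < 2 * Real.pi), abs_of_pos (Real.exp_pos v)]
      have n2 : ‖(D v : ℂ) * Complex.I‖ = |D v| := by
        rw [norm_mul, Complex.norm_I, mul_one, Complex.norm_real, Real.norm_eq_abs]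
      rw [norm_div, norm_mul, hEn, one_mul, norm_pow, n1, n2]
      have h5 : m ^ 2 ≤ |D v| ^ 2 := pow_le_pow_left₀ hmpos.le (hDm v hv'') 2
      calc 2 * Real.pi * |β| * Real.exp v / |D v| ^ 2
          ≤ 2 * Real.pi * |β| * Real.exp v / m ^ 2 := by gcongr
        _ = _ := by ring
    have hRv : ∫ v in (Real.log y)..(Real.log (y + h)), 2 * Real.pi * |β| / m ^ 2 * Real.exp v =
        2 * Real.pi * |β| / m ^ 2 * h := by
      rw [intervalIntegral.integral_const_mul, integral_exp, Real.exp_log hyh, Real.exp_log hy]
      ring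
    rw [hRv] at hRn
    have hfin : ‖JJb y h β t‖ ≤ 1 / m + 1 / m + 2 * Real.pi * |β| / m ^ 2 * h := by
      rw [hJ2]
      refine (norm_add_le _ _).trans (add_le_add ((norm_sub_le _ _).trans (add_le_add ?_ ?_)) hRn)
      · exact hb _ Set.right_mem_uIcc
      · exact hb _ Set.left_mem_uIcc
    refine hfin.trans ?_
    have h6 : 2 * Real.pi * |β| / m ^ 2 * h ≤ 9 / 20 * |t0| / m ^ 2 := by
      have : 2 * Real.pi * |β| / m ^ 2 * h = 2 * Real.pi * (|β| * h) / m ^ 2 := by ring
      rw [this]
      gcongr
    refine (add_le_add_right h6 _).trans ?_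
    have ht : 0 < |t0| := h2
    rw [hm]
    have : 1 / (11 / 20 * |t0|) + 1 / (11 / 20 * |t0|) + 9 / 20 * |t0| / (11 / 20 * |t0|) ^ 2 =
      (20 / 11 + 20 / 11 + 180 / 121) / |t0| := by
      field_simp
      ring
    rw [this]
    gcongr
    norm_num

end Pool.Agent.Helper31.SU
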