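import Pool.Agent.Helper58.SU.StP

/-!
# Project SU, module WS
-/

set_option autoImplicit false

namespace Pool.Agent.Helper31.SU

open Finset ArithmeticFunction MeasureTheory
open Pool.Agent.Helper58.SU

theorem conv_WS (f : ℤ → ℝ) (J : ℕ) :
    ∑ k ∈ range (2 * J + 1), f ((k : ℤ) - J) = ∑ j ∈ Icc (-(J : ℤ)) J, f j := by
  refine Finset.sum_nbij' (fun k => (k : ℤ) - J) (fun j => (j + J).toNat) ?_ ?_ ?_ ?_ ?_
  · intro k hk
    rw [mem_range] at hk
    simp only [mem_Icc]
    omega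
  · intro j hj
    rw [mem_Icc] at hj
    simp only [mem_range]
    omega
  · intro k hk
    simp
  · intro j hj
    rw [mem_Icc] at hj
    omega
  · intro k hk
    rfl

/-- sums over the integers of a function of the distance to `n` -/
theorem two_sided (g : ℕ → ℝ) (hg : ∀ k, 0 ≤ g k) (s : Finset ℤ) (n : ℤ) (B : ℝ)
    (hB : ∀ N : ℕ, ∑ k ∈ range N, g k ≤ B) : ∑ j ∈ s, g (j - n).natAbs ≤ 2 * B := by
  classical
  have key : ∀ u : Finset ℤ, Set.InjOn (fun j : ℤ => (j - n).natAbs) u →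
      ∑ j ∈ u, g (j - n).natAbs ≤ B := by
    intro u hu
    rw [← Finset.sum_image (f := g) (g := fun j : ℤ => (j - n).natAbs) hu]
    obtain ⟨N, hN⟩ := (u.image (fun j : ℤ => (j - n).natAbs)).exists_nat_subset_range
    exact (Finset.sum_le_sum_of_subset_of_nonneg hN fun i _ _ => hg i).trans (hB N)
  rw [← Finset.sum_filter_add_sum_filter_not s (fun j => n ≤ j)]
  have h1 := key (s.filter fun j => n ≤ j) (by
    intro a ha b hb hab
    simp only [coe_filter, Set.mem_ofPred_eq] at ha hb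
    simp only at hab
    omega)
  have h2 := key (s.filter fun j => ¬ n ≤ j) (by
    intro a ha b hb hab
    simp only [coe_filter, Set.mem_ofPred_eq] at ha hb
    simp only at hab
    omega)
  linarith

theorem inv_sq_sum (N : ℕ) : ∑ k ∈ range N, 1 / ((k : ℝ) + 1) ^ 2 ≤ 2 := by
  have h : ∀ N : ℕ, ∑ k ∈ range (N + 1), 1 / ((k : ℝ) + 1) ^ 2 ≤ 2 - 1 / ((N : ℝ) + 1) := by
    intro N
    induction N with
    | zero => simp; norm_num
    | succ N ih =>
      rw [Finset.sum_range_succ]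
      have h1 : 1 / (((N + 1 : ℕ) : ℝ) + 1) ^ 2 ≤
          1 / ((N : ℝ) + 1) - 1 / (((N + 1 : ℕ) : ℝ) + 1) := by
        push_cast
        have : 1 / ((N : ℝ) + 1) - 1 / ((N : ℝ) + 1 + 1) =
          1 / (((N : ℝ) + 1) * ((N : ℝ) + 1 + 1)) := by
          field_simp; ring
        rw [this]
        have h0 : (0 : ℝ) ≤ N := N.cast_nonneg
        exact one_div_le_one_div_of_le (by positivity) (by nlinarith)
      linarith
  cases N with
  | zero => simp
  | succ N =>
    refine (h N).trans ?_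
    have : (0 : ℝ) ≤ 1 / ((N : ℝ) + 1) := by positivity
    linarith

/-- the coefficients -/
noncomputable def cw (K : ℝ) (k : ℕ) : ℝ :=
  if (k : ℝ) < K + 2 then 1 else 24 / ((k : ℝ) + 1)

theorem cw_nonneg (K : ℝ) (k : ℕ) : 0 ≤ cw K k := by
  unfold cw; split_ifs <;> positivity

theorem cw_sum {K : ℝ} (hK : 0 ≤ K) (N : ℕ) : ∑ k ∈ range N, cw K k ^ 2 ≤ K + 1155 := by
  have h1 : ∀ k : ℕ, cw K k ^ 2 ≤
      (if (k : ℝ) < K + 2 then 1 else 0) + 576 * (1 / ((k : ℝ) + 1) ^ 2) := by
    intro k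
    unfold cw
    split_ifs
    · have : 0 ≤ 576 * (1 / ((k : ℝ) + 1) ^ 2) := by positivity
      linarith
    · rw [div_pow]
      have : (24 : ℝ) ^ 2 / ((k : ℝ) + 1) ^ 2 = 576 * (1 / ((k : ℝ) + 1) ^ 2) := by ring
      linarith
  refine (Finset.sum_le_sum fun k _ => h1 k).trans ?_
  rw [Finset.sum_add_distrib, ← Finset.mul_sum]
  have h2 := inv_sq_sum N
  have h3 : ∑ k ∈ range N, (if (k : ℝ) < K + 2 then (1 : ℝ) else 0) ≤ K + 3 := by
    rw [Finset.sum_ite, Finset.sum_const_zero, add_zero, Finset.sum_const, nsmul_eq_mul, mul_one]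
    have h4 : ((range N).filter fun k : ℕ => (k : ℝ) < K + 2) ⊆ range ⌈K + 2⌉₊ := by
      intro k hk
      rw [mem_filter] at hk
      rw [mem_range]
      exact Nat.lt_ceil.2 hk.2
    have h5 := Finset.card_le_card h4
    rw [card_range] at h5
    have h6 : (⌈K + 2⌉₊ : ℝ) < K + 2 + 1 := Nat.ceil_lt_add_one (by linarith)
    have h7 : ((((range N).filter fun k : ℕ => (k : ℝ) < K + 2)).card : ℝ) ≤ (⌈K + 2⌉₊ : ℝ) := by
      exact_mod_cast h5
    linarith
  linarith

theorem hWS (h : StJb) : StWs := by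
  refine ⟨√2310, by positivity, ?_⟩
  intro a y hh β E ha hh0 hhy hE hwsq
  have hy : 0 < y := lt_of_lt_of_le hh0 hhy
  set W := y / hh with hW
  have hWpos : 0 < W := by positivity
  set t0 := -(2 * Real.pi * β * y) with ht0
  set n := ⌊t0 / W⌋ with hn
  have hn1 : (n : ℝ) * W ≤ t0 := by
    have := Int.floor_le (t0 / W)
    rwa [le_div_iff₀ hWpos] at this
  have hn2 : t0 < ((n : ℝ) + 1) * W := by
    have := Int.lt_floor_add_one (t0 / W)
    rwa [div_lt_iff₀ hWpos] at this
  set K := 14 * |β| * hh ^ 2 / y with hK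
  have hK0 : 0 ≤ K := by positivity
  have hKW : 14 * |β| * hh = K * W := by
    rw [hK, hW]; field_simp
  -- bound of `JJb` on a window
  have hJ : ∀ (j : ℤ) (t : ℝ), (j : ℝ) * W ≤ t → t ≤ ((j : ℝ) + 1) * W →
      ‖JJb y hh β t‖ ≤ hh / y * cw K (j - n).natAbs := by
    intro j t ht1 ht2
    obtain ⟨b1, b2⟩ := h y hh β t hy hh0.le
    unfold cw
    split_ifs with hc
    · rw [mul_one]; exact b1
    · have hc := not_lt.1 hc
      set k := (j - n).natAbs with hk
      have hk2 : (2 : ℝ) ≤ k := by linarith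
      have hdist : ((k : ℝ) - 1) * W ≤ |t + 2 * Real.pi * β * y| := by
        have e : t + 2 * Real.pi * β * y = t - t0 := by rw [ht0]; ring
        rw [e]
        rcases le_total n j with hnj | hnj
        · have hkj : (k : ℝ) = (j : ℝ) - n := by
            have : (k : ℤ) = j - n := by omega
            exact_mod_cast this
          refine le_trans ?_ (le_abs_self _)
          rw [hkj]
          nlinarith
        · have hkj : (k : ℝ) = (n : ℝ) - j := by
            have : (k : ℤ) = n - j := by omega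
            exact_mod_cast this
          refine le_trans ?_ (neg_le_abs _)
          rw [hkj]
          nlinarith
      have hd0 : 0 < ((k : ℝ) - 1) * W := mul_pos (by linarith) hWpos
      have h3 := b2 (by
        rw [hKW]
        refine le_trans ?_ hdist
        exact mul_le_mul_of_nonneg_right (by linarith) hWpos.le) (hd0.trans_le hdist)
      refine h3.trans ?_
      have h4 : 8 / |t + 2 * Real.pi * β * y| ≤ 8 / (((k : ℝ) - 1) * W) := by gcongr
      refine h4.trans ?_
      have h5 : hh / y * (24 / ((k : ℝ) + 1)) = 24 / (((k : ℝ) + 1) * W) := by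
        rw [hW]; field_simp
      rw [h5, div_le_div_iff₀ hd0 (by positivity)]
      have : 8 * (((k : ℝ) + 1) * W) = (8 * ((k : ℝ) + 1)) * W := by ring
      rw [this]
      have : 24 * (((k : ℝ) - 1) * W) = (24 * ((k : ℝ) - 1)) * W := by ring
      rw [this]
      exact mul_le_mul_of_nonneg_right (by linarith) hWpos.le
  by_cases hint : Integrable (fun t => a t * JJb y hh β t)
  swap
  · rw [integral_undef hint, norm_zero]; positivity
  have hlim : Filter.Tendsto (fun J : ℕ => ∫ t in (-(J : ℝ) * W)..(((J : ℝ) + 1) * W),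
      a t * JJb y hh β t) Filter.atTop (nhds (∫ t : ℝ, a t * JJb y hh β t)) := by
    refine intervalIntegral_tendsto_integral hint ?_ ?_
    · have : Filter.Tendsto (fun J : ℕ => (J : ℝ) * W) Filter.atTop Filter.atTop :=
        tendsto_natCast_atTop_atTop.atTop_mul_const hWpos
      have h2 := Filter.tendsto_neg_atTop_atBot.comp this
      refine h2.congr fun J => ?_
      simp [Function.comp]
    · exact (Filter.tendsto_atTop_add_const_right _ _ tendsto_natCast_atTop_atTop).atTop_mul_const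
        hWpos
  refine le_of_tendsto' hlim.norm fun J => ?_
  -- the finite sum
  have hadj := intervalIntegral.sum_integral_adjacent_intervals
    (f := fun t => a t * JJb y hh β t) (μ := volume)
    (a := fun k : ℕ => (((k : ℤ) - J : ℤ) : ℝ) * W) (n := 2 * J + 1)
    (fun k _ => hint.intervalIntegrable)
  have e1 : ((((0 : ℕ) : ℤ) - J : ℤ) : ℝ) * W = -(J : ℝ) * W := by push_cast; ring
  have e2 : ((((2 * J + 1 : ℕ) : ℤ) - J : ℤ) : ℝ) * W = ((J : ℝ) + 1) * W := by push_cast; ring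
  rw [e1, e2] at hadj
  rw [← hadj]
  set I : ℤ → ℝ := fun j => ∫ t in ((j : ℝ) * W)..(((j : ℝ) + 1) * W), ‖a t‖ with hI
  have hterm : ∀ k ∈ range (2 * J + 1),
      ‖∫ t in ((((k : ℤ) - J : ℤ) : ℝ) * W)..(((((k + 1 : ℕ) : ℤ) - J : ℤ) : ℝ) * W),
        a t * JJb y hh β t‖ ≤
      (fun j : ℤ => hh / y * (cw K (j - n).natAbs * I j)) ((k : ℤ) - J) := by
    intro k _
    set j : ℤ := (k : ℤ) - J with hj
    have e3 : ((((k + 1 : ℕ) : ℤ) - J : ℤ) : ℝ) = (j : ℝ) + 1 := by rw [hj]; push_cast; ring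
    rw [e3]
    have hle : (j : ℝ) * W ≤ ((j : ℝ) + 1) * W := by nlinarith
    have h6 : ‖∫ t in ((j : ℝ) * W)..(((j : ℝ) + 1) * W), a t * JJb y hh β t‖ ≤
        ∫ t in ((j : ℝ) * W)..(((j : ℝ) + 1) * W), (hh / y * cw K (j - n).natAbs) * ‖a t‖ := by
      refine intervalIntegral.norm_integral_le_of_norm_le hle ?_
        (ha.norm.const_mul _).intervalIntegrable
      refine Filter.Eventually.of_forall fun t ht => ?_
      rw [norm_mul, mul_comm]
      exact mul_le_mul_of_nonneg_right (hJ j t ht.1.le ht.2) (norm_nonneg _)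
    refine h6.trans (le_of_eq ?_)
    rw [intervalIntegral.integral_const_mul]
    simp only [hI]
    ring
  refine (norm_sum_le _ _).trans ((Finset.sum_le_sum hterm).trans ?_)
  rw [conv_WS (fun j : ℤ => hh / y * (cw K (j - n).natAbs * I j)) J, ← Finset.mul_sum]
  have hCS := Finset.sum_mul_sq_le_sq_mul_sq (Icc (-(J : ℤ)) J)
    (fun j : ℤ => cw K (j - n).natAbs) I
  have hS1 : ∑ j ∈ Icc (-(J : ℤ)) J, cw K (j - n).natAbs ^ 2 ≤ 2310 * (1 + |β| * hh ^ 2 / y) := by
    refine (two_sided (fun k => cw K k ^ 2) (fun k => sq_nonneg _) _ n (K + 1155)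
      (cw_sum hK0)).trans ?_
    have : K = 14 * (|β| * hh ^ 2 / y) := by rw [hK]; ring
    rw [this]
    have : 0 ≤ |β| * hh ^ 2 / y := by positivity
    linarith
  have hS2 : ∑ j ∈ Icc (-(J : ℤ)) J, I j ^ 2 ≤ E := hwsq J
  have hS3 : (∑ j ∈ Icc (-(J : ℤ)) J, cw K (j - n).natAbs * I j) ^ 2 ≤
      2310 * ((1 + |β| * hh ^ 2 / y) * E) := by
    refine hCS.trans ?_
    have h7 : 0 ≤ ∑ j ∈ Icc (-(J : ℤ)) J, I j ^ 2 := Finset.sum_nonneg fun _ _ => sq_nonneg _
    calc _ ≤ (2310 * (1 + |β| * hh ^ 2 / y)) * E :=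
          mul_le_mul hS1 hS2 h7 (by positivity)
      _ = _ := by ring
  have hS4 := Real.le_sqrt_of_sq_le hS3
  rw [Real.sqrt_mul (by norm_num)] at hS4
  calc hh / y * ∑ j ∈ Icc (-(J : ℤ)) J, cw K (j - n).natAbs * I j
      ≤ hh / y * (√2310 * √((1 + |β| * hh ^ 2 / y) * E)) :=
        mul_le_mul_of_nonneg_left hS4 (by positivity)
    _ = _ := by ring

end Pool.Agent.Helper31.SU
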